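import Mathlib
import Pool.Agent.Work.MP_6b14a3_ag.Main

set_option autoImplicit false

namespace Pool.Agent.Results.MP_6b14a3_ag.BinaryForms

open MvPolynomial

/-- The binary form `a 0 y^n + a 1 x y^(n-1) + ... + a n x^n` of degree `n` (`x`, `y` are the two
variables). -/
noncomputable def form (n : ℕ) (a : ℕ → ℂ) : MvPolynomial (Fin 2) ℂ :=
  ∑ k ∈ Finset.range (n + 1), C (a k) * X 0 ^ k * X 1 ^ (n - k)

private theorem form_hom (n : ℕ) (a : ℕ → ℂ) : (form n a).IsHomogeneous n := by
  refine IsHomogeneous.sum _ _ _ fun k hk => ?_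
  have hk' : k ≤ n := by
    have := Finset.mem_range.1 hk
    omega
  have h1 := ((isHomogeneous_C (Fin 2) (a k)).mul (isHomogeneous_X_pow (R := ℂ) (0 : Fin 2) k)).mul
    (isHomogeneous_X_pow (R := ℂ) (1 : Fin 2) (n - k))
  have h2 : 0 + k + (n - k) = n := by omega
  rw [h2] at h1
  exact h1

private theorem exists_form (n : ℕ) (g : MvPolynomial (Fin 2) ℂ) (hg : g.IsHomogeneous n) :
    ∃ b : ℕ → ℂ, g = form n b := by
  let p : Polynomial ℂ := MvPolynomial.aeval ![Polynomial.X, 1] g
  have hp : p.homogenize n = g := Polynomial.homogenize_eq_of_isHomogeneous hg rfl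
  refine ⟨fun k => p.coeff k, ?_⟩
  rw [← hp, Polynomial.homogenize, form,
    Finset.Nat.sum_antidiagonal_eq_sum_range_succ_mk]
  refine Finset.sum_congr rfl fun k hk => ?_
  rw [X_pow_eq_monomial, X_pow_eq_monomial, mul_assoc, monomial_mul, C_mul_monomial, mul_one,
    mul_one]
  have h1 : (Finsupp.single (0 : Fin 2) k).update 1 (n - k) =
      Finsupp.single (0 : Fin 2) k + Finsupp.single (1 : Fin 2) (n - k) := by
    apply Finsupp.ext
    intro i
    fin_cases i <;> simp
  rw [← h1]

/-- Every complex binary form of degree `d e` is a sum of `d` `d`-th powers of binary forms of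
degree `e`, for all positive `d`, `e`. -/
theorem result (d e : ℕ) (hd : 0 < d) (a : ℕ → ℂ) :
    ∃ b : Fin d → ℕ → ℂ, form (d * e) a = ∑ i, form e (b i) ^ d := by
  obtain ⟨g, hg, h⟩ := Work.MP_6b14a3_ag.shapiro d e hd _ (form_hom (d * e) a)
  choose b hb using fun i => exists_form e (g i) (hg i)
  refine ⟨b, ?_⟩
  rw [h]
  exact Finset.sum_congr rfl fun i _ => by rw [hb i]

end Pool.Agent.Results.MP_6b14a3_ag.BinaryForms
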